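import Pool.Agent.V5helper19.ER.Stm2

/-! Project ER, job DA -/

set_option autoImplicit false
open Finset

namespace V5helper62.ER

open V5helper19.ER

/-- the quadratic form is at most three times the sum of the squares -/
lemma QQ_le {n : ℕ} (m b : Fin n → Fin n → ℝ) (h0 : ∀ i k, 0 ≤ m i k) (hs : ∀ i k, m i k = m k i)
    (hr : ∀ i, ∑ k, m i k ≤ 2) :
    ∑ i, ∑ l, b i l ^ 2 + ∑ i, ∑ k, m i k * ∑ l, b i l * b k l ≤ 3 * ∑ i, ∑ l, b i l ^ 2 := by
  have h1 : ∀ i k, m i k * ∑ l, b i l * b k l ≤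
      m i k * (∑ l, b i l ^ 2) / 2 + m k i * (∑ l, b k l ^ 2) / 2 := by
    intro i k
    have h2 : ∑ l, b i l * b k l ≤ (∑ l, b i l ^ 2) / 2 + (∑ l, b k l ^ 2) / 2 := by
      rw [Finset.sum_div, Finset.sum_div, ← Finset.sum_add_distrib]
      apply Finset.sum_le_sum
      intro l _
      nlinarith [sq_nonneg (b i l - b k l)]
    have h3 := mul_le_mul_of_nonneg_left h2 (h0 i k)
    rw [hs k i]
    linarith
  have h2 : ∑ i, ∑ k, m i k * ∑ l, b i l * b k l ≤
      ∑ i, ∑ k, (m i k * (∑ l, b i l ^ 2) / 2 + m k i * (∑ l, b k l ^ 2) / 2) :=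
    Finset.sum_le_sum fun i _ => Finset.sum_le_sum fun k _ => h1 i k
  have h3 : ∑ i, ∑ k, m i k * (∑ l, b i l ^ 2) / 2 ≤ ∑ i, ∑ l, b i l ^ 2 := by
    apply Finset.sum_le_sum
    intro i _
    have h4 : ∑ k, m i k * (∑ l, b i l ^ 2) / 2 = (∑ k, m i k) * ((∑ l, b i l ^ 2) / 2) := by
      rw [Finset.sum_mul]
      apply Finset.sum_congr rfl
      intro k _
      ring
    rw [h4]
    have h5 : 0 ≤ (∑ l, b i l ^ 2) / 2 := by positivity
    have h6 := mul_le_mul_of_nonneg_right (hr i) h5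
    linarith
  have h4 : ∑ i, ∑ k, m k i * (∑ l, b k l ^ 2) / 2 = ∑ i, ∑ k, m i k * (∑ l, b i l ^ 2) / 2 :=
    Finset.sum_comm
  have h5 : ∑ i, ∑ k, (m i k * (∑ l, b i l ^ 2) / 2 + m k i * (∑ l, b k l ^ 2) / 2) =
      ∑ i, ∑ k, m i k * (∑ l, b i l ^ 2) / 2 + ∑ i, ∑ k, m k i * (∑ l, b k l ^ 2) / 2 := by
    rw [← Finset.sum_add_distrib]
    apply Finset.sum_congr rfl
    intro i _
    rw [Finset.sum_add_distrib]
  rw [h5, h4] at h2
  linarith

lemma NN_pos (n : ℕ) : 0 < NN n := by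
  unfold NN
  exact_mod_cast Fintype.card_pos

theorem t_DA (hK : S_KEY) (hM : S_MAIN) (hS : S_SM) (hH : S_HYP) : S_DA := by
  obtain ⟨K1, n1, hK1, HM⟩ := hM
  obtain ⟨K2, hK2, HH⟩ := hH
  obtain ⟨n2, hn2⟩ := exists_nat_ge ((20 * K1 + 20) ^ 2)
  refine ⟨K1 + K2, n1 + n2 + 100, by linarith, fun n hn D S hB => ?_⟩
  have hn100 : 100 ≤ n := by omega
  have hnR : (100:ℝ) ≤ n := by exact_mod_cast hn100
  have hn2R : (20 * K1 + 20) ^ 2 ≤ (n:ℝ) := hn2.trans (by exact_mod_cast (by omega : n2 ≤ n))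
  obtain ⟨-, -, k3, -, -, -⟩ := hK n (by omega) S
  have hmain := HM n (by omega) D S hB
  obtain ⟨g1, g2, g3, g4, g5, g6⟩ := HH n hn100 D S hB
  set c : ℝ := cc S with hc
  set A : ℝ := ∑ i, ∑ l, ab S i l ^ 2 with hA
  have hN := NN_pos n
  have hcard : (S.card : ℝ) = c * NN n / n := by
    rw [hc, cc]
    field_simp
  have hA0 : 0 ≤ A := by positivity
  have hn0 : (0:ℝ) < n := by linarith
  have hn1 : (0:ℝ) < (n:ℝ) - 1 := by linarith
  have hA1 : A * ((n:ℝ) - 1) ≤ c * n := by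
    rw [hcard] at k3
    have e1 : NN n * (((n:ℝ) - 1) / n ^ 2) * A = NN n / n ^ 2 * (A * ((n:ℝ) - 1)) := by ring
    have e2 : c * NN n / n = NN n / n ^ 2 * (c * n) := by field_simp
    rw [e1, e2] at k3
    exact le_of_mul_le_mul_left k3 (by positivity)
  have hQ : QQ D S ≤ 3 * A := by
    unfold QQ
    exact QQ_le (mm D) (ab S) (fun i k => (g3 i k).1) (fun i k => (g3 i k).2.2.2) g5
  have hsq : 20 * K1 + 20 ≤ Real.sqrt n := Real.le_sqrt_of_sq_le hn2R
  have hsq0 : 0 < Real.sqrt n := by linarith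
  have hKs : K1 / Real.sqrt n ≤ 1 / 20 := by
    rw [div_le_div_iff₀ hsq0 (by norm_num)]
    linarith
  have hc1 : 1 < c := g6
  have hc4 : c ≤ 4 := by
    have f1 : 2 / ((n:ℝ) - 1) ≤ 1 / 20 := by
      rw [div_le_div_iff₀ hn1 (by norm_num)]
      linarith
    have f2 : A ≤ c * (11 / 10) := by
      by_contra hcon
      push Not at hcon
      have := mul_lt_mul_of_pos_right hcon hn1
      nlinarith
    have f3 : K1 * c / Real.sqrt n ≤ c * (1 / 20) := by
      have : K1 * c / Real.sqrt n = c * (K1 / Real.sqrt n) := by ring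
      rw [this]
      exact mul_le_mul_of_nonneg_left hKs (by linarith)
    have f4 : (1 - 2 / ((n:ℝ) - 1)) * c ^ 2 ≥ (19 / 20) * c ^ 2 := by
      apply mul_le_mul_of_nonneg_right _ (by positivity)
      linarith
    have f5 : (19 / 20) * c ^ 2 ≤ c * (3 * (11 / 10) + 1 / 20) := by nlinarith
    have f6 : (19 / 20) * c ≤ 3 * (11 / 10) + 1 / 20 := by
      by_contra hcon
      push Not at hcon
      have := mul_lt_mul_of_pos_left hcon (by linarith : (0:ℝ) < c)
      nlinarith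
    linarith
  refine ⟨hc1.le, hc4, fun i j => (g1 i j).1, fun i j => (g1 i j).2, g2, ?_, fun i k => (g3 i k).1,
    fun i k => (g3 i k).2.1, fun i => (g3 i i).2.2.1, fun i k => (g3 i k).2.2.2, g5, ?_, ?_, ?_⟩
  · show A ≤ 5
    by_contra hcon
    push Not at hcon
    have := mul_lt_mul_of_pos_right hcon hn1
    nlinarith
  · intro I
    refine (g4 I).trans ?_
    have h1 : K2 * (I.card : ℝ) ^ 4 / n ≤ (K1 + K2) * (I.card : ℝ) ^ 4 / n := by
      apply div_le_div_of_nonneg_right _ hn0.le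
      apply mul_le_mul_of_nonneg_right _ (by positivity)
      linarith
    linarith
  · intro η hη
    exact hS n (by omega) S η hη
  · refine hmain.trans ?_
    have h1 : K1 * c / Real.sqrt n ≤ (K1 + K2) * c / Real.sqrt n := by
      apply div_le_div_of_nonneg_right _ hsq0.le
      apply mul_le_mul_of_nonneg_right _ (by linarith)
      linarith
    have h2 : QQ D S = ∑ i, ∑ l, (aa S i l - c / n) ^ 2 +
        ∑ i, ∑ k, mm D i k * ∑ l, (aa S i l - c / n) * (aa S k l - c / n) := rfl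
    linarith

end V5helper62.ER
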